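import Pool.Graph.R_pool_sql_team_22a80281.Results.MP_1cb079_al.WCL

/-! The weak cancellation law in locally nilpotent groups. -/

set_option autoImplicit false

open Subgroup
open scoped commutatorElement

namespace Pool.Agent.KS6_9.WC

universe u

/-- `G[n]` is finite for all `n > 0`. -/
def AlmostTorsionFree (G : Type u) [Group G] : Prop := ∀ n : ℕ, 0 < n → {g : G | g ^ n = 1}.Finite

/-- All power maps are finitely-many-to-one. -/
def WCL (G : Type u) [Group G] : Prop := ∀ n : ℕ, 0 < n → ∀ y : G, {x : G | x ^ n = y}.Finite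

/-- Finitely generated subgroups are nilpotent. -/
def LocallyNilpotent (G : Type u) [Group G] : Prop :=
  ∀ F : Set G, F.Finite → Group.IsNilpotent (closure F)

/-- For all `y` and `n > 0`: `y` has only finitely many conjugates `a y a⁻¹` by elements `a` of
finite order which commute with `y ^ n`. -/
def FewConjugates (G : Type u) [Group G] : Prop :=
  ∀ n : ℕ, 0 < n → ∀ y : G, {x : G | ∃ a, IsOfFinOrder a ∧ Commute a (y ^ n) ∧ x = a * y * a⁻¹}.Finite

variable {G : Type u} [Group G]

lemma closure_top (F : Set G) :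
    closure (((↑) : closure F → G) ⁻¹' F) = (⊤ : Subgroup (closure F)) :=
  closure_closure_coe_preimage

/-- two `n`-th roots differ by an element of finite order -/
lemma root_quot (hG : LocallyNilpotent G) (n : ℕ) (x y : G) (h : x ^ n = y ^ n) :
    ∃ c : ℕ, (x * y⁻¹) ^ n ^ c = 1 := by
  have hnil := hG {x, y} (by simp)
  obtain ⟨c, hc⟩ := Subgroup.nilpotent_iff_lowerCentralSeries.1 hnil
  have hx : x ∈ closure ({x, y} : Set G) := subset_closure (by simp)
  have hy : y ∈ closure ({x, y} : Set G) := subset_closure (by simp)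
  have hS : closure ({⟨x, hx⟩, ⟨y, hy⟩} : Set (closure ({x, y} : Set G))) = ⊤ := by
    rw [← closure_closure_coe_preimage]
    congr 1
    ext g
    simp [Subtype.ext_iff]
  have := Pool.Agent.Results.MP_1cb079_al.WCL.key n c hc ⟨x, hx⟩ ⟨y, hy⟩ hS (Subtype.ext h)
  exact ⟨c, congrArg Subtype.val this⟩

lemma root_tor (hG : LocallyNilpotent G) {n : ℕ} (hn : 0 < n) {x y : G} (h : x ^ n = y ^ n) :
    IsOfFinOrder (x * y⁻¹) := by
  obtain ⟨c, hc⟩ := root_quot hG n x y h
  exact isOfFinOrder_iff_pow_eq_one.2 ⟨n ^ c, pow_pos hn c, hc⟩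

lemma tor_mul (hG : LocallyNilpotent G) {a b : G} (ha : IsOfFinOrder a) (hb : IsOfFinOrder b) :
    IsOfFinOrder (a * b) := by
  obtain ⟨m, hm, h1⟩ := isOfFinOrder_iff_pow_eq_one.1 ha
  obtain ⟨k, hk, h2⟩ := isOfFinOrder_iff_pow_eq_one.1 hb
  have h3 : a ^ (m * k) = (b⁻¹) ^ (m * k) := by
    rw [pow_mul, h1, one_pow, inv_pow, mul_comm, pow_mul, h2, one_pow, inv_one]
  have := root_tor hG (Nat.mul_pos hm hk) h3
  rwa [inv_inv] at this

/-- exponent of a nilpotent group generated by elements of exponent `n` -/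
lemma expo {H : Type u} [Group H] (S : Set H) (hS : closure S = ⊤) (n c : ℕ)
    (hn : ∀ s ∈ S, s ^ n = 1) (hc : (⊤ : Subgroup H).lowerCentralSeries c = ⊥) (g : H) :
    g ^ n ^ c = 1 := by
  have hn' : ∀ s ∈ S, s ^ n ∈ center H := fun s hs => by rw [hn s hs]; exact one_mem _
  have h1 : ∀ i, g ^ n ^ i ∈ (⊤ : Subgroup H).lowerCentralSeries i := by
    intro i
    induction i with
    | zero => exact mem_top _
    | succ i ih =>
      cases i with
      | zero =>
        rw [zero_add, pow_one, top_lowerCentralSeries_one, ← Abelianization.ker_of,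
          MonoidHom.mem_ker, map_pow]
        have hg : g ∈ closure S := hS ▸ mem_top g
        induction hg using closure_induction with
        | mem s hs => rw [← map_pow, hn s hs, map_one]
        | one => simp
        | mul x y _ _ hx hy => rw [map_mul, mul_pow, hx (mem_top _), hy (mem_top _), mul_one]
        | inv x _ hx => rw [map_inv, inv_pow, hx (mem_top _), inv_one]
      | succ i =>
        rw [pow_succ, pow_mul]
        exact Pool.Agent.Results.MP_1cb079_al.WCL.step _ hS n hn' _ _ ih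
  have := h1 c
  rwa [hc, mem_bot] at this

/-- a finite set of elements of finite order generates a finite subgroup -/
lemma fin_closure (hG : LocallyNilpotent G) (hA : AlmostTorsionFree G) (F : Set G) (hF : F.Finite)
    (ht : ∀ a ∈ F, IsOfFinOrder a) : (closure F : Set G).Finite := by
  obtain ⟨n, hn, hn'⟩ : ∃ n : ℕ, 0 < n ∧ ∀ a ∈ F, a ^ n = 1 := by
    refine ⟨∏ a ∈ hF.toFinset, orderOf a, Finset.prod_pos fun a ha =>
      (ht a (hF.mem_toFinset.1 ha)).orderOf_pos, fun a ha => ?_⟩
    exact orderOf_dvd_iff_pow_eq_one.1 (Finset.dvd_prod_of_mem _ (hF.mem_toFinset.2 ha))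
  obtain ⟨c, hc⟩ := Subgroup.nilpotent_iff_lowerCentralSeries.1 (hG F hF)
  refine (hA (n ^ c) (pow_pos hn c)).subset fun g hg => ?_
  have := expo _ (closure_top F) n c (fun s hs => Subtype.ext (hn' _ hs)) hc ⟨g, hg⟩
  exact congrArg Subtype.val this

theorem wcl_of (hG : LocallyNilpotent G) (hA : AlmostTorsionFree G) (hF : FewConjugates G) :
    WCL G := by
  intro n hn z
  rcases Set.eq_empty_or_nonempty {x : G | x ^ n = z} with h | ⟨y, hy⟩
  · rw [h]; exact Set.finite_empty
  obtain rfl : y ^ n = z := hy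
  -- the elements of finite order commuting with `y ^ n`
  set C : Set G := {a | IsOfFinOrder a ∧ Commute a (y ^ n)} with hC
  have Cmul : ∀ a ∈ C, ∀ b ∈ C, a * b ∈ C := fun a ha b hb =>
    ⟨tor_mul hG ha.1 hb.1, ha.2.mul_left hb.2⟩
  have Cinv : ∀ a ∈ C, a⁻¹ ∈ C := fun a ha => ⟨ha.1.inv, ha.2.inv_left⟩
  have Cconj : ∀ a ∈ C, y * a * y⁻¹ ∈ C := fun a ha => by
    refine ⟨?_, ?_⟩
    · have : IsOfFinOrder (MulAut.conj y a) := MonoidHom.isOfFinOrder (MulAut.conj y).toMonoidHom ha.1
      simpa using this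
    · exact ((Commute.self_pow y n).mul_left ha.2).mul_left (Commute.self_pow y n).inv_left
  have Cconj' : ∀ a ∈ C, y⁻¹ * a * y ∈ C := fun a ha => by
    refine ⟨?_, ?_⟩
    · have : IsOfFinOrder (MulAut.conj y⁻¹ a) :=
        MonoidHom.isOfFinOrder (MulAut.conj y⁻¹).toMonoidHom ha.1
      simpa using this
    · exact ((Commute.self_pow y n).inv_left.mul_left ha.2).mul_left (Commute.self_pow y n)
  set F : Set G := (fun a => ⁅y, a⁆) '' C with hFdef
  have hFfin : F.Finite := by
    refine ((hF n hn y).image fun x => y * x⁻¹).subset ?_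
    rintro _ ⟨a, ha, rfl⟩
    refine ⟨a * y * a⁻¹, ⟨a, ha.1, ha.2, rfl⟩, ?_⟩
    simp only [commutatorElement_def]; group
  have hFt : ∀ f ∈ F, IsOfFinOrder f := by
    rintro _ ⟨a, ha, rfl⟩
    have h1 : y ^ n = (a * y * a⁻¹) ^ n := by
      rw [conj_pow, ha.2.eq, mul_inv_cancel_right]
    have := root_tor hG hn h1
    have e : ⁅y, a⁆ = y * (a * y * a⁻¹)⁻¹ := by simp only [commutatorElement_def]; group
    change IsOfFinOrder ⁅y, a⁆
    rw [e]; exact this
  set M := closure F with hM
  have hMfin : (M : Set G).Finite := fin_closure hG hA F hFfin hFt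
  -- `M` is normalised by `C` and `y`
  have norm_of : ∀ g : G, (∀ f ∈ F, g * f * g⁻¹ ∈ M) → (∀ f ∈ F, g⁻¹ * f * g ∈ M) →
      g ∈ normalizer (M : Set G) := by
    intro g h1 h2
    have key : ∀ g : G, (∀ f ∈ F, g * f * g⁻¹ ∈ M) → ∀ m ∈ M, g * m * g⁻¹ ∈ M := by
      intro g h1 m hm
      induction hm using closure_induction with
      | mem f hf => exact h1 f hf
      | one => simp
      | mul a b _ _ ha hb =>
        have : g * (a * b) * g⁻¹ = (g * a * g⁻¹) * (g * b * g⁻¹) := by group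
        rw [this]; exact mul_mem ha hb
      | inv a _ ha =>
        have : g * a⁻¹ * g⁻¹ = (g * a * g⁻¹)⁻¹ := by group
        rw [this]; exact inv_mem ha
    rw [Subgroup.mem_normalizer_iff]
    intro m
    refine ⟨fun hm => key g h1 m hm, fun hm => ?_⟩
    have := key g⁻¹ (fun f hf => by rw [inv_inv]; exact h2 f hf) _ hm
    have e : g⁻¹ * (g * m * g⁻¹) * g⁻¹⁻¹ = m := by group
    rwa [e] at this
  have hFC : ∀ g ∈ C, ∀ f ∈ F, g * f * g⁻¹ ∈ M := by
    rintro g hg _ ⟨a, ha, rfl⟩
    have : g * ⁅y, a⁆ * g⁻¹ = ⁅y, g⁆⁻¹ * ⁅y, g * a⁆ := by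
      simp only [commutatorElement_def]; group
    change g * ⁅y, a⁆ * g⁻¹ ∈ M
    rw [this]
    exact mul_mem (inv_mem (subset_closure ⟨g, hg, rfl⟩))
      (subset_closure ⟨g * a, Cmul g hg a ha, rfl⟩)
  have hCM : ∀ g ∈ C, g ∈ normalizer (M : Set G) := fun g hg => norm_of g (hFC g hg) fun f hf => by
    have := hFC g⁻¹ (Cinv g hg) f hf
    rwa [inv_inv] at this
  have hyM : y ∈ normalizer (M : Set G) := norm_of y
    (by
      rintro _ ⟨a, ha, rfl⟩
      have : y * ⁅y, a⁆ * y⁻¹ = ⁅y, y * a * y⁻¹⁆ := by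
        simp only [commutatorElement_def]; group
      change y * ⁅y, a⁆ * y⁻¹ ∈ M
      rw [this]
      exact subset_closure ⟨_, Cconj a ha, rfl⟩)
    (by
      rintro _ ⟨a, ha, rfl⟩
      have : y⁻¹ * ⁅y, a⁆ * y = ⁅y, y⁻¹ * a * y⁆ := by
        simp only [commutatorElement_def]; group
      change y⁻¹ * ⁅y, a⁆ * y ∈ M
      rw [this]
      exact subset_closure ⟨_, Cconj' a ha, rfl⟩)
  -- the solutions
  have main : ∀ x : G, x ^ n = y ^ n → (x * y⁻¹) ^ n ∈ M := by
    intro x hx
    set u := x * y⁻¹ with hu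
    have huC : u ∈ C := ⟨root_tor hG hn hx, by
      refine Commute.mul_left ?_ (Commute.self_pow y n).inv_left
      rw [← hx]; exact Commute.self_pow x n⟩
    let K : Subgroup G := normalizer (M : Set G)
    let π : K →* K ⧸ (M.subgroupOf K) := QuotientGroup.mk' _
    let y' : K := ⟨y, hyM⟩
    let u' : K := ⟨u, hCM u huC⟩
    have hcomm : Commute (π u') (π y') := by
      refine Commute.symm ?_
      rw [← commutatorElement_eq_one_iff_commute, ← map_commutatorElement]
      refine (QuotientGroup.eq_one_iff _).2 ?_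
      rw [mem_subgroupOf]
      exact subset_closure ⟨u, huC, rfl⟩
    have h1 : (u' * y') ^ n = y' ^ n := Subtype.ext (by
      change (u * y) ^ n = y ^ n
      rw [hu, inv_mul_cancel_right, hx])
    have h2 : π u' ^ n = 1 := by
      have h3 := congrArg π h1
      rw [map_pow, map_pow, map_mul, hcomm.mul_pow] at h3
      exact mul_eq_right.1 h3
    rw [← map_pow] at h2
    have h4 := (QuotientGroup.eq_one_iff _).1 h2
    rw [mem_subgroupOf] at h4
    exact h4
  have : Finite M := hMfin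
  have hfin : {g : G | g ^ (n * Nat.card M) = 1}.Finite :=
    hA _ (Nat.mul_pos hn Nat.card_pos)
  refine (hfin.image fun g => g * y).subset fun x hx => ⟨x * y⁻¹, ?_, by simp⟩
  have h5 := main x hx
  have h6 : (⟨(x * y⁻¹) ^ n, h5⟩ : M) ^ Nat.card M = 1 := pow_card_eq_one'
  have h7 := congrArg Subtype.val h6
  change ((x * y⁻¹) ^ n) ^ Nat.card M = 1 at h7
  change (x * y⁻¹) ^ (n * Nat.card M) = 1
  rw [pow_mul]; exact h7

theorem wcl_iff (hG : LocallyNilpotent G) : WCL G ↔ AlmostTorsionFree G ∧ FewConjugates G := by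
  refine ⟨fun h => ⟨fun n hn => h n hn 1, fun n hn y => (h n hn (y ^ n)).subset ?_⟩,
    fun h => wcl_of hG h.1 h.2⟩
  rintro _ ⟨a, -, ha, rfl⟩
  change (a * y * a⁻¹) ^ n = y ^ n
  rw [conj_pow, ha.eq, mul_inv_cancel_right]

end Pool.Agent.KS6_9.WC
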