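import Pool.Agent.KS6_9.WC.Crit

/-! A hypercentral, virtually abelian, almost torsion-free group without weak cancellation. -/

set_option autoImplicit false

open Subgroup
open scoped commutatorElement

namespace Pool.Agent.KS6_9.WC

/-- Every nontrivial quotient has a nontrivial centre. -/
def Hypercentral (G : Type) [Group G] : Prop :=
  ∀ N : Subgroup G, N.Normal → N ≠ ⊤ → ∃ g, g ∉ N ∧ ∀ h, ⁅g, h⁆ ∈ N

/-- the complex roots of unity of order a power of two -/
def A : Subgroup ℂˣ where
  carrier := {z | ∃ k : ℕ, z ^ 2 ^ k = 1}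
  mul_mem' := by
    rintro a b ⟨k, hk⟩ ⟨l, hl⟩
    refine ⟨k + l, ?_⟩
    rw [mul_pow, pow_add, pow_mul, hk, one_pow, one_mul, mul_comm, pow_mul, hl, one_pow]
  one_mem' := ⟨0, one_pow _⟩
  inv_mem' := by
    rintro a ⟨k, hk⟩
    exact ⟨k, by rw [inv_pow, hk, inv_one]⟩

lemma A_tor (a : A) : ∃ k : ℕ, a ^ 2 ^ k = 1 := by
  obtain ⟨k, hk⟩ := a.2
  exact ⟨k, Subtype.ext hk⟩

lemma A_fin (n : ℕ) (hn : 0 < n) : {a : A | a ^ n = 1}.Finite := by
  have : NeZero n := ⟨hn.ne'⟩
  have h : (rootsOfUnity n ℂ : Set ℂˣ).Finite :=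
    Set.finite_coe_iff.1 (inferInstanceAs (Finite (rootsOfUnity n ℂ)))
  refine Set.Finite.of_finite_image (f := fun a : A => (a : ℂˣ)) (h.subset ?_)
    Subtype.val_injective.injOn
  rintro _ ⟨a, ha, rfl⟩
  exact (mem_rootsOfUnity n _).2 (congrArg Subtype.val ha)

lemma A_inf : Infinite A := by
  have h : ∀ k : ℕ, ∃ a : A, orderOf a = 2 ^ k := by
    intro k
    have hp := Complex.isPrimitiveRoot_exp (2 ^ k) (by positivity)
    have hp' := hp.isUnit_unit (by positivity)
    refine ⟨⟨_, k, hp'.pow_eq_one⟩, ?_⟩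
    rw [← Subgroup.orderOf_coe]
    exact hp'.eq_orderOf.symm
  choose f hf using h
  exact Infinite.of_injective f fun i j hij => by
    have := congrArg orderOf hij
    rw [hf, hf] at this
    exact Nat.pow_right_injective le_rfl this

/-- the action of the integers on `A` by inversion -/
noncomputable def φ : Multiplicative ℤ →* MulAut A := zpowersHom (MulAut A) (MulEquiv.inv A)

/-- The group. -/
abbrev Ex : Type := A ⋊[φ] Multiplicative ℤ

noncomputable def tt : Ex := SemidirectProduct.inr (Multiplicative.ofAdd 1)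

lemma φ_one_apply (a : A) : φ (Multiplicative.ofAdd 1) a = a⁻¹ := by
  simp [φ]

lemma φ_sq : φ (Multiplicative.ofAdd 1) * φ (Multiplicative.ofAdd 1) = 1 := by
  ext a
  rw [MulAut.mul_apply, φ_one_apply, φ_one_apply, inv_inv]; rfl

/-- every element acts trivially or by inversion -/
lemma φ_cases (t : Multiplicative ℤ) : (∀ a, φ t a = a) ∨ ∀ a, φ t a = a⁻¹ := by
  obtain ⟨k, rfl⟩ : ∃ k : ℤ, t = Multiplicative.ofAdd 1 ^ k :=
    ⟨Multiplicative.toAdd t, by rw [← ofAdd_zsmul]; simp⟩
  rcases Int.even_or_odd' k with ⟨m, rfl | rfl⟩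
  · left; intro a
    rw [map_zpow, zpow_mul, zpow_ofNat, pow_two, φ_sq, one_zpow]; rfl
  · right; intro a
    rw [map_zpow, zpow_add, zpow_mul, zpow_ofNat, pow_two, φ_sq, one_zpow, one_mul, zpow_one,
      φ_one_apply]

lemma right_pow (g : Ex) (n : ℕ) : (g ^ n).right = g.right ^ n :=
  map_pow SemidirectProduct.rightHom g n

lemma atf : AlmostTorsionFree Ex := by
  intro n hn
  refine ((A_fin n hn).image fun a => (SemidirectProduct.inl a : Ex)).subset fun g hg => ?_
  have h1 : g.right = 1 := by
    have h2 : (g ^ n).right = 1 := by rw [show g ^ n = 1 from hg]; rfl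
    rw [right_pow] at h2
    exact (pow_eq_one_iff_left hn.ne').1 h2
  have h3 : g = SemidirectProduct.inl g.left := by
    ext
    · rfl
    · rw [h1]; rfl
  refine ⟨g.left, ?_, h3.symm⟩
  have h4 : (SemidirectProduct.inl (φ := φ) (g.left ^ n)) = 1 := by
    rw [map_pow, ← h3]; exact hg
  exact SemidirectProduct.inl_injective (h4.trans (map_one _).symm)

lemma sq (a : A) : (SemidirectProduct.inl a * tt : Ex) ^ 2 = tt ^ 2 := by
  have h : (tt : Ex) * SemidirectProduct.inl a * tt⁻¹ = SemidirectProduct.inl a⁻¹ := by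
    have := SemidirectProduct.inl_aut (φ := φ) (Multiplicative.ofAdd 1) a
    rw [φ_one_apply] at this
    rw [this]; rfl
  calc (SemidirectProduct.inl a * tt : Ex) ^ 2
      = SemidirectProduct.inl a * (tt * SemidirectProduct.inl a * tt⁻¹) * tt ^ 2 := by
        rw [pow_two, pow_two]; group
    _ = tt ^ 2 := by rw [h, ← map_mul, mul_inv_cancel, map_one, one_mul]

lemma not_wcl : {x : Ex | x ^ 2 = tt ^ 2}.Infinite := by
  have := A_inf
  refine Set.infinite_of_injective_forall_mem (f := fun a : A => (SemidirectProduct.inl a * tt : Ex))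
    (fun a b h => SemidirectProduct.inl_injective (mul_right_cancel h)) fun a => sq a

lemma commutator_left (g h : Ex) : ∃ a : A, ⁅g, h⁆ = SemidirectProduct.inl a := by
  refine ⟨⁅g, h⁆.left, ?_⟩
  ext
  · rfl
  · change (SemidirectProduct.rightHom ⁅g, h⁆ : Multiplicative ℤ) = 1
    rw [map_commutatorElement, commutatorElement_eq_one_iff_mul_comm]
    exact mul_comm _ _

/-- commutators with elements of `A` -/
lemma commutator_A (a : A) (h : Ex) :
    ⁅(SemidirectProduct.inl a : Ex), h⁆ = 1 ∨ ⁅(SemidirectProduct.inl a : Ex), h⁆ =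
      SemidirectProduct.inl (a ^ 2) := by
  have e : h = SemidirectProduct.inl h.left * SemidirectProduct.inr h.right :=
    (SemidirectProduct.inl_left_mul_inr_right h).symm
  have h1 : h * (SemidirectProduct.inl a : Ex) * h⁻¹ = SemidirectProduct.inl (φ h.right a) := by
    rw [SemidirectProduct.inl_aut]
    nth_rw 1 2 [e]
    have h2 : (SemidirectProduct.inr h.right : Ex) * SemidirectProduct.inl a *
        (SemidirectProduct.inr h.right)⁻¹ = SemidirectProduct.inl (φ h.right a) := by
      rw [SemidirectProduct.inl_aut, map_inv]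
    calc SemidirectProduct.inl h.left * SemidirectProduct.inr h.right *
          (SemidirectProduct.inl a : Ex) * (SemidirectProduct.inl h.left *
            SemidirectProduct.inr h.right)⁻¹
        = SemidirectProduct.inl h.left * (SemidirectProduct.inr h.right * SemidirectProduct.inl a *
          (SemidirectProduct.inr h.right)⁻¹) * (SemidirectProduct.inl h.left)⁻¹ := by group
      _ = _ := by
        rw [h2, ← map_inv, ← map_mul, ← map_mul, mul_comm h.left, mul_inv_cancel_right]
        rw [SemidirectProduct.inl_aut]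
  have h3 : ⁅(SemidirectProduct.inl a : Ex), h⁆ =
      SemidirectProduct.inl (a * (φ h.right a)⁻¹) := by
    rw [map_mul, map_inv, ← h1]
    simp only [commutatorElement_def]; group
  rw [h3]
  rcases φ_cases h.right with h | h
  · left; rw [h, mul_inv_cancel, map_one]
  · right; rw [h, inv_inv, pow_two]

theorem hyper : Hypercentral Ex := by
  intro N hN hne
  by_cases hA : ∀ a : A, (SemidirectProduct.inl a : Ex) ∈ N
  · obtain ⟨g, hg⟩ : ∃ g, g ∉ N := by
      by_contra hc; push Not at hc
      exact hne (eq_top_iff.2 fun g _ => hc g)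
    refine ⟨g, hg, fun h => ?_⟩
    obtain ⟨a, ha⟩ := commutator_left g h
    rw [ha]; exact hA a
  · push Not at hA
    have hex : ∃ k : ℕ, ∃ a : A, (SemidirectProduct.inl a : Ex) ∉ N ∧ a ^ 2 ^ k = 1 := by
      obtain ⟨a, ha⟩ := hA
      obtain ⟨k, hk⟩ := A_tor a
      exact ⟨k, a, ha, hk⟩
    classical
    obtain ⟨a, ha, hk⟩ := Nat.find_spec hex
    refine ⟨SemidirectProduct.inl a, ha, fun h => ?_⟩
    rcases commutator_A a h with h1 | h1
    · rw [h1]; exact one_mem _
    · rw [h1]
      by_contra hc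
      have hk0 : Nat.find hex ≠ 0 := by
        intro h0
        rw [h0, pow_zero, pow_one] at hk
        exact ha (by rw [hk, map_one]; exact one_mem _)
      obtain ⟨k, hk'⟩ := Nat.exists_eq_succ_of_ne_zero hk0
      refine Nat.find_min hex (m := k) (by omega) ⟨a ^ 2, hc, ?_⟩
      rw [hk', Nat.pow_succ, mul_comm, pow_mul] at hk
      exact hk

theorem virt : ∃ H : Subgroup Ex, H.index = 2 ∧ ∀ a ∈ H, ∀ b ∈ H, a * b = b * a := by
  let f : Ex →* ℤˣ := (zpowersHom ℤˣ (-1)).comp SemidirectProduct.rightHom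
  have hf : ∀ g : Ex, f g = (-1) ^ (Multiplicative.toAdd g.right) := fun g => rfl
  refine ⟨f.ker, ?_, ?_⟩
  · rw [Subgroup.index_ker]
    have : Function.Surjective f := by
      intro u
      rcases Int.units_eq_one_or u with rfl | rfl
      · exact ⟨1, map_one _⟩
      · refine ⟨tt, ?_⟩
        rw [hf]; simp [tt]
    rw [MonoidHom.range_eq_top.2 this, Subgroup.card_top]
    simp
  · have hact : ∀ g ∈ f.ker, ∀ a : A, φ g.right a = a := by
      intro g hg a
      rw [MonoidHom.mem_ker, hf] at hg
      have hev : Even (Multiplicative.toAdd g.right) := by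
        by_contra hodd
        rw [Int.not_even_iff_odd] at hodd
        rw [hodd.neg_one_zpow] at hg
        exact absurd hg (by decide)
      obtain ⟨m, hm⟩ := hev
      have e : g.right = Multiplicative.ofAdd 1 ^ (2 * m) := by
        rw [← ofAdd_zsmul, smul_eq_mul, mul_one, two_mul, ← hm]; rfl
      rw [e, map_zpow, zpow_mul, zpow_ofNat, pow_two, φ_sq, one_zpow]; rfl
    intro a ha b hb
    ext
    · rw [SemidirectProduct.mul_left, SemidirectProduct.mul_left, hact a ha, hact b hb, mul_comm]
    · rw [SemidirectProduct.mul_right, SemidirectProduct.mul_right, mul_comm]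

end Pool.Agent.KS6_9.WC
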