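import Pool.Agent.KS6_9.WC.Ex

/-! The example is locally nilpotent and countable. -/

set_option autoImplicit false

open Subgroup
open scoped commutatorElement

namespace Pool.Agent.KS6_9.WC

lemma φ_pow_one (t : Multiplicative ℤ) (a : A) (m : ℕ) (h : a ^ m = 1) : φ t a ^ m = 1 := by
  rw [← map_pow, h, map_one]

/-- the elements with `A`-component of exponent `2 ^ k` -/
noncomputable def Gam (k : ℕ) : Subgroup Ex where
  carrier := {g | g.left ^ 2 ^ k = 1}
  mul_mem' := by
    intro g h hg hh
    change (g * h).left ^ 2 ^ k = 1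
    rw [SemidirectProduct.mul_left, mul_pow, φ_pow_one _ _ _ hh, mul_one]; exact hg
  one_mem' := by change (1 : Ex).left ^ 2 ^ k = 1; rw [SemidirectProduct.one_left, one_pow]
  inv_mem' := by
    intro g hg
    change (g⁻¹).left ^ 2 ^ k = 1
    rw [SemidirectProduct.inv_left]
    exact φ_pow_one _ _ _ (by rw [inv_pow, show g.left ^ 2 ^ k = 1 from hg, inv_one])

/-- an ascending central series -/
noncomputable def ser (k n : ℕ) : Subgroup (Gam k) where
  carrier := {x | k < n ∨ (x.1.right = 1 ∧ x.1.left ^ 2 ^ n = 1)}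
  mul_mem' := by
    rintro x y (h | ⟨h1, h2⟩) (h' | ⟨h3, h4⟩)
    · exact Or.inl h
    · exact Or.inl h
    · exact Or.inl h'
    · refine Or.inr ⟨?_, ?_⟩
      · change (x.1 * y.1).right = 1
        rw [SemidirectProduct.mul_right, h1, h3, one_mul]
      · change (x.1 * y.1).left ^ 2 ^ n = 1
        rw [SemidirectProduct.mul_left, mul_pow, h2, φ_pow_one _ _ _ h4, one_mul]
  one_mem' := Or.inr ⟨rfl, by
    change (1 : Ex).left ^ 2 ^ n = 1; rw [SemidirectProduct.one_left, one_pow]⟩
  inv_mem' := by
    rintro x (h | ⟨h1, h2⟩)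
    · exact Or.inl h
    · refine Or.inr ⟨?_, ?_⟩
      · change (x.1⁻¹).right = 1
        rw [SemidirectProduct.inv_right, h1, inv_one]
      · change (x.1⁻¹).left ^ 2 ^ n = 1
        rw [SemidirectProduct.inv_left]
        exact φ_pow_one _ _ _ (by rw [inv_pow, h2, inv_one])

lemma Gam_nil (k : ℕ) : Group.IsNilpotent (Gam k) := by
  rw [Subgroup.nilpotent_iff_finite_ascending_central_series]
  refine ⟨k + 1, ser k, ⟨?_, ?_⟩, ?_⟩
  · rw [eq_bot_iff]
    rintro x (h | ⟨h1, h2⟩)
    · omega
    · rw [Subgroup.mem_bot]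
      apply Subtype.ext
      ext
      · rw [pow_zero, pow_one] at h2
        rw [h2]; rfl
      · rw [h1]; rfl
  · intro x n hx g
    have key : ∃ a : A, (⁅x, g⁆ : Gam k).1 = SemidirectProduct.inl a :=
      commutator_left x.1 g.1
    obtain ⟨a, ha⟩ := key
    rcases hx with h | ⟨h1, h2⟩
    · rcases (Nat.lt_succ_iff.1 h).lt_or_eq with h | h
      · exact Or.inl h
      · subst h
        exact Or.inr ⟨by rw [ha]; rfl, (⁅x, g⁆ : Gam k).2⟩
    · have hx' : x.1 = SemidirectProduct.inl x.1.left := by
        ext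
        · rfl
        · rw [h1]; rfl
      have hc : (⁅x, g⁆ : Gam k).1 = ⁅(SemidirectProduct.inl x.1.left : Ex), g.1⁆ := by
        rw [← hx']; rfl
      refine Or.inr ⟨by rw [ha]; rfl, ?_⟩
      rcases commutator_A x.1.left g.1 with h3 | h3
      · rw [hc, h3, SemidirectProduct.one_left, one_pow]
      · rw [hc, h3, SemidirectProduct.left_inl, ← pow_mul, ← Nat.pow_succ']
        exact h2
  · rw [eq_top_iff]
    intro x _
    exact Or.inl (Nat.lt_succ_self k)

lemma Gam_mono {k l : ℕ} (h : k ≤ l) : Gam k ≤ Gam l := by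
  intro g hg
  change g.left ^ 2 ^ l = 1
  obtain ⟨m, rfl⟩ := Nat.exists_eq_add_of_le h
  rw [pow_add, pow_mul, show g.left ^ 2 ^ k = 1 from hg, one_pow]

theorem locNil : LocallyNilpotent Ex := by
  intro F hF
  have h : ∃ k, F ⊆ Gam k := by
    induction F, hF using Set.Finite.induction_on with
    | empty => exact ⟨0, by simp⟩
    | @insert a s _ _ ih =>
      obtain ⟨k, hk⟩ := ih
      obtain ⟨l, hl⟩ := A_tor a.left
      refine ⟨max k l, ?_⟩
      rintro x (rfl | hx)
      · exact Gam_mono (le_max_right _ _) (show x ∈ Gam l from hl)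
      · exact Gam_mono (le_max_left _ _) (hk hx)
  obtain ⟨k, hk⟩ := h
  have hle : closure F ≤ Gam k := (closure_le _).2 hk
  have := Gam_nil k
  exact Group.nilpotent_of_mulEquiv (subgroupOfEquivOfLe hle)

lemma A_countable : Countable A := by
  have h : (Set.univ : Set A) = ⋃ k : ℕ, {a | a ^ 2 ^ k = 1} := by
    ext a
    simp only [Set.mem_univ, Set.mem_iUnion, Set.mem_ofPred_eq, true_iff]
    exact A_tor a
  rw [← Set.countable_univ_iff, h]
  exact Set.countable_iUnion fun k => (A_fin _ (by positivity)).countable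

theorem countable : Countable Ex := by
  have := A_countable
  have : Countable (Multiplicative ℤ) := inferInstanceAs (Countable ℤ)
  exact (Function.Injective.countable (f := fun g : Ex => (g.left, g.right))
    fun g h e => SemidirectProduct.ext (congrArg Prod.fst e) (congrArg Prod.snd e))

end Pool.Agent.KS6_9.WC
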